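import Mathlib
import Pool.Agent.Lib_MP_140d1b_an.AsyMain
import Pool.Agent.Lib_MP_140d1b_an.AiryBottom
import Pool.Agent.Lib_MP_140d1b_an.AiryExist

/-!
MP_140d1b_an, Q1 (partial): the exact asymptotics of `r_p - (√2 - 1)` as `p → ∞`.
-/

namespace Pool.Agent.Results.MP_140d1b_an.AiryLimit

open Pool.Agent.LibMP140d1b Filter Topology

theorem result :
    (∃ A : ℝ → ℝ, ∃ a : ℝ, IsAiry A a) ∧
    ∀ (A : ℝ → ℝ) (a : ℝ), IsAiry A a →
      Tendsto (fun p : ℝ => p ^ (2 / 3 : ℝ) * (subordinationRadius p - (Real.sqrt 2 - 1))) atTop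
        (𝓝 (2 ^ (-(1 / 6) : ℝ) * (Real.sqrt 2 - 1) ^ (5 / 3 : ℝ) * a)) := by
  refine ⟨exists_airy, ?_⟩
  intro A a h
  rw [← airyBottom_eq h]
  exact asy_limit

end Pool.Agent.Results.MP_140d1b_an.AiryLimit
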