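import Mathlib
import Pool.Agent.Lib_MP_140d1b_an.OrderLower
import Pool.Agent.Lib_MP_140d1b_an.Upper

/-!
MP_140d1b_an, Q1 (partial): the exact order of `r_p - (√2 - 1)` as `p → ∞`.
-/

namespace Pool.Agent.Results.MP_140d1b_an.Asymptotics

open Pool.Agent.LibMP140d1b

theorem result : ∀ p : ℝ, 2 ≤ p →
    1 / 1500 * p ^ (-(2 / 3) : ℝ) ≤ subordinationRadius p - (Real.sqrt 2 - 1) ∧
      subordinationRadius p - (Real.sqrt 2 - 1) ≤ 4 / 5 * p ^ (-(2 / 3) : ℝ) := by
  intro p hp
  have h1 := order_lower hp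
  have h2 := upper_bound (p := p) (by linarith)
  constructor <;> linarith

end Pool.Agent.Results.MP_140d1b_an.Asymptotics
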