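import Mathlib
import Pool.Agent.Lib_MP_140d1b_an.LowerBound

/-!
MP_140d1b_an, Q1 (partial): a lower bound for the subordination radius `r_p`, `p ≥ 2`, which is
sharp at `p = 2` and improves the classical bound `√2 - 1` for every `p > 2`.
-/

namespace Pool.Agent.Results.MP_140d1b_an.LowerBound

open Pool.Agent.LibMP140d1b

theorem result : ∀ p : ℝ, 2 ≤ p →
    (Real.sqrt 2 - 1) + (Real.sqrt 2 - 1) ^ 2 / p ≤ subordinationRadius p :=
  fun _ hp => lower_bound hp

end Pool.Agent.Results.MP_140d1b_an.LowerBound
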