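import Mathlib
import Pool.Agent.Lib_MP_140d1b_an.Upper1201

/-!
There is a threshold exponent `P` with `4 ≤ P < 12.01` such that `r_p = 1/2` exactly for `p ≤ P`.
In particular `r_p = 1/2` for every `0 < p ≤ 4`.
-/

namespace Pool.Agent.Results.MP_140d1b_an.Threshold

open Pool.Agent.LibMP140d1b

/-- `r_p = 1/2` holds exactly up to a threshold exponent `P ∈ [4, 12.01)`. -/
theorem result : ∃ P : ℝ, 4 ≤ P ∧ P < 12.01 ∧
    ∀ p : ℝ, 0 < p → (subordinationRadius p = 1 / 2 ↔ p ≤ P) := threshold_1201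

end Pool.Agent.Results.MP_140d1b_an.Threshold
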